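import Mathlib
import Pool.Agent.Run7.h241.ZDefs
import Pool.Agent.Run7.h241.Amal

set_option autoImplicit false

namespace Pool.Agent.Results.MP_b9ee0a_al.AmalgamFiniteIndex

open Run7.h241

/-- Let `K` be a torsion-free group embedded with finite index in two groups `G true` and
`G false`, each of which admits a Z-structure. Then the amalgamated product admits a
Z-structure. -/
theorem result {K : Type} [Group K] {G : Bool → Type} [∀ b, Group (G b)] (φ : ∀ b, K →* G b)
    (hφ : ∀ b, Function.Injective (φ b)) (hfi : ∀ b, (φ b).range.FiniteIndex)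
    (htf : ∀ k : K, IsOfFinOrder k → k = 1) (hZ : ∀ b, HasZStructure (G b)) :
    HasZStructure (Monoid.PushoutI φ) :=
  amalgam φ hφ hfi htf hZ

end Pool.Agent.Results.MP_b9ee0a_al.AmalgamFiniteIndex
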