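import Mathlib
import Pool.Agent.Run7.h241.ZDefs
import Pool.Agent.Run7.h241.HNNZ

set_option autoImplicit false

namespace Pool.Agent.Results.MP_b9ee0a_al.HNNFiniteIndex

open Run7.h241

/-- Let `G` admit a Z-structure and let `φ : A ≃* B` be an isomorphism between torsion-free
subgroups of finite index of `G`. Then the HNN extension admits a Z-structure. -/
theorem result {G : Type} [Group G] (A B : Subgroup G) (φ : A ≃* B) [A.FiniteIndex]
    [B.FiniteIndex] (htf : ∀ k : A, IsOfFinOrder k → k = 1) (hZ : HasZStructure G) :
    HasZStructure (HNNExtension G A B φ) :=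
  hnn A B φ htf hZ

end Pool.Agent.Results.MP_b9ee0a_al.HNNFiniteIndex
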